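import Pool.Agent.helper86.BK.Spec
import Pool.Agent.helper86.PrimesDyadic

/-!
# PRM: passing to primes
-/

set_option autoImplicit false

namespace Pool.Agent.BK

open Filter

theorem PRM_mono (Q Q' : Set ℕ) (h : Q ⊆ Q') (a : ℕ → ℤ) (N : ℕ) : cov Q a N ≤ cov Q' a N := by
  unfold cov
  refine Set.ncard_le_ncard ?_ ?_
  · rintro n ⟨h1, h2, q, hq, h3⟩
    exact ⟨h1, h2, q, h hq, h3⟩
  · refine (Set.finite_Icc 1 N).subset ?_
    rintro n ⟨h1, h2, -⟩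
    exact ⟨h1, h2⟩

theorem PRM_coe (α : ℝ) (N : ℕ) :
    ((Pool.Agent.helper86.dyadicPrimes ((N : ℝ) ^ α) : Finset ℕ) : Set ℕ) = dyP α N := by
  ext p
  rw [Finset.mem_coe, Pool.Agent.helper86.mem_dyadicPrimes]
  rfl

theorem PRM_key {c : ℝ} (h : Rob c) {α : ℝ} (h0 : 0 < α) (h1 : α < 1) {ε : ℝ} (hε : 0 < ε) :
    ∃ N₀ : ℕ, ∀ N : ℕ, N₀ ≤ N → ∀ a : ℕ → ℤ,
      (N : ℝ) ^ (1 - c * α - ε) ≤ cov (dyP α N) a N := by
  obtain ⟨δ, hδ, N₀, hN⟩ := h α h0 h1 ε hε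
  have hδ' : 0 < min δ (1 / 2) := lt_min hδ (by norm_num)
  have hδ1 : min δ (1 / 2) < 1 := (min_le_right _ _).trans_lt (by norm_num)
  have ht : Tendsto (fun N : ℕ => (N : ℝ) ^ α) atTop atTop :=
    (tendsto_rpow_atTop h0).comp tendsto_natCast_atTop_atTop
  obtain ⟨N₁, hN₁⟩ := eventually_atTop.1
    (ht.eventually (Pool.Agent.helper86.dyadicPrimes_ge hδ' hδ1))
  refine ⟨max (max N₀ N₁) 1, fun N hNN a => ?_⟩
  have hN0 : N₀ ≤ N := (le_max_left _ _).trans ((le_max_left _ _).trans hNN)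
  have hN1 : N₁ ≤ N := (le_max_right _ _).trans ((le_max_left _ _).trans hNN)
  have hN2 : 1 ≤ N := (le_max_right _ _).trans hNN
  have hN3 : (1 : ℝ) ≤ N := by exact_mod_cast hN2
  rw [← PRM_coe]
  refine hN N hN0 _ ?_ ?_ a
  · rw [PRM_coe]
    rintro p ⟨-, h2, h3⟩
    exact ⟨h2, h3⟩
  · refine le_trans ?_ (hN₁ N hN1)
    rw [← Real.rpow_mul (by positivity)]
    refine Real.rpow_le_rpow_of_exponent_le hN3 ?_
    have h4 : min δ (1 / 2) ≤ δ := min_le_left _ _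
    have h5 : α * min δ (1 / 2) ≤ 1 * min δ (1 / 2) :=
      mul_le_mul_of_nonneg_right h1.le hδ'.le
    nlinarith

theorem PRM : PRM_stmt := by
  refine ⟨?_, ?_, ?_, ?_, ?_⟩
  · intro c hc h ε hε α₀ hα₀
    have hm : max α₀ 0 < 1 := max_lt hα₀ one_pos
    have hm0 : 0 ≤ max α₀ 0 := le_max_right _ _
    have hm1 : α₀ ≤ max α₀ 0 := le_max_left _ _
    refine ⟨(max α₀ 0 + 1) / 2, by linarith, by linarith, ?_⟩
    obtain ⟨N₀, hN⟩ := PRM_key h (α := (max α₀ 0 + 1) / 2) (by linarith) (by linarith) hε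
    refine ⟨max N₀ 1, fun N hNN a => ?_⟩
    have hN2 : 1 ≤ N := (le_max_right _ _).trans hNN
    have hN3 : (1 : ℝ) ≤ N := by exact_mod_cast hN2
    refine le_trans ?_ (hN N ((le_max_left _ _).trans hNN) a)
    refine Real.rpow_le_rpow_of_exponent_le hN3 ?_
    have h4 : c * ((max α₀ 0 + 1) / 2) ≤ c * 1 := mul_le_mul_of_nonneg_left (by linarith) hc
    linarith
  · intro h α h1 h2 ε hε
    obtain ⟨N₀, hN⟩ := PRM_key h (α := α) (by linarith) h2 hε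
    refine ⟨N₀, fun N hNN a => ?_⟩
    have h3 := hN N hNN a
    rwa [zero_mul, sub_zero] at h3
  · intro h ε hε α₀ hα₀
    have hm : max α₀ (1 / 2) < 1 := max_lt hα₀ (by norm_num)
    have hm0 : 1 / 2 ≤ max α₀ (1 / 2) := le_max_right _ _
    have hm1 : α₀ ≤ max α₀ (1 / 2) := le_max_left _ _
    refine ⟨(max α₀ (1 / 2) + 1) / 2, by linarith, by linarith, ?_⟩
    obtain ⟨N₀, hN⟩ := h ((max α₀ (1 / 2) + 1) / 2) (by linarith) (by linarith) ε hε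
    refine ⟨N₀, fun N hNN a => ?_⟩
    have h3 := hN N hNN a
    rwa [sub_zero]
  · intro c h ε hε α₀ hα₀
    obtain ⟨α, h1, h2, N₀, hN⟩ := h ε hε α₀ hα₀
    refine ⟨α, h1, h2, N₀, fun N hNN a => (hN N hNN a).trans ?_⟩
    have h3 : cov (dyP α N) a N ≤ cov (dyA α N) a N :=
      PRM_mono (dyP α N) (dyA α N) (fun p hp => ⟨hp.2.1, hp.2.2⟩) a N
    exact_mod_cast h3
  · intro c h ε hε
    obtain ⟨δ, hδ, hδε, M₀, hM⟩ := h ε hε
    refine ⟨δ, hδ, hδε, max M₀ 1, fun M hMM B hB => ?_⟩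
    have hM1 : 1 ≤ M := (le_max_right _ _).trans hMM
    have hM2 : (1 : ℝ) ≤ M := by exact_mod_cast hM1
    refine hM M ((le_max_left _ _).trans hMM) B (Finset.Icc 1 M) ?_ ?_ ?_
    · intro q hq
      exact Finset.mem_Icc.1 hq
    · rw [Nat.card_Icc, Nat.add_sub_cancel]
      calc (M : ℝ) ^ (1 - δ) ≤ (M : ℝ) ^ (1 : ℝ) :=
            Real.rpow_le_rpow_of_exponent_le hM2 (by linarith)
        _ = M := Real.rpow_one _
    · intro q hq
      have h1 := Finset.mem_Icc.1 hq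
      exact hB q h1.1 h1.2

end Pool.Agent.BK
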